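import Pool.Agent.helper13.U4.SpecD

set_option autoImplicit false

namespace Pool.Agent.U4

theorem DA : DA_stmt := by
  intro h q v x hv hFL σ hσ
  have r0 := hFL.r0
  have r1 := hFL.r1
  have r2 := hFL.r2
  refine ⟨?_, ?_, ?_⟩
  · intro h3
    refine ⟨0, 0, 0, σ, 0, 1, 0, σ - 1, ⟨r0 _ (by omega), r0 _ (by omega), by omega, by omega,
      by omega, Or.inl ⟨by omega, by omega⟩⟩, ⟨r0 _ (by omega), r0 _ (by omega), by omega, by omega,
      by omega, Or.inl ⟨by omega, by omega⟩⟩, by omega, by omega⟩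
  · intro h3
    refine ⟨1, 1, 0, σ - 1, 1, 3, 0, σ - 3, ⟨r1 _ (by omega) (by omega), r0 _ (by omega), by omega,
      by omega, by omega, Or.inl ⟨by omega, by omega⟩⟩, ⟨r1 _ (by omega) (by omega),
      r0 _ (by omega), by omega, by omega, by omega, Or.inl ⟨by omega, by omega⟩⟩, by omega,
      by omega⟩
  · by_cases hc : σ + 5 ≤ v
    · refine ⟨0, σ + 1, 0, v - 1, 0, σ + 2, 0, v - 2, ⟨r0 _ (by omega), r0 _ (by omega), by omega,
        by omega, by omega, Or.inr ⟨by omega, by omega⟩⟩, ⟨r0 _ (by omega), r0 _ (by omega),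
        by omega, by omega, by omega, Or.inr ⟨by omega, by omega⟩⟩, by omega, by omega⟩
    · refine ⟨2, 3, 0, σ - 3, 2, 5, 0, σ - 5, ⟨r2 _ (by omega) (by omega) (by omega),
        r0 _ (by omega), by omega, by omega, by omega, Or.inl ⟨by omega, by omega⟩⟩,
        ⟨r2 _ (by omega) (by omega) (by omega), r0 _ (by omega), by omega, by omega, by omega,
        Or.inl ⟨by omega, by omega⟩⟩, by omega, by omega⟩

end Pool.Agent.U4
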