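import Pool.Agent.helper13.U4.SpecY

set_option autoImplicit false

namespace Pool.Agent.U4

lemma ONB_par (k q h v : ℕ) (hp : Par k q h v) : 4 ≤ h ∧ 15 * h ≤ v + 1 := by
  obtain ⟨hk, hh, hq, hv⟩ := hp
  have h4 : 4 ≤ h := by
    rw [hh]
    calc 4 = 2 ^ 2 := by norm_num
      _ ≤ 2 ^ k := Nat.pow_le_pow_right (by norm_num) hk
  refine ⟨h4, ?_⟩
  have h1 : 2 * h * 7 ≤ 2 * h * q := Nat.mul_le_mul_left _ hq
  omega

lemma ONB_odd (k q h v : ℕ) (hp : Par k q h v) : v % 2 = 1 := by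
  obtain ⟨hk, hh, hq, hv⟩ := hp
  have h2 : h % 2 = 0 := by
    obtain ⟨j, rfl⟩ : ∃ j, k = j + 1 := ⟨k - 1, by omega⟩
    rw [hh, pow_succ]
    omega
  have h3 : 2 * h * q = 2 * (h * q) := by ring
  rw [h3] at hv
  omega

theorem ONB (h1 : CEL_stmt) : ONB_stmt := by
  intro k q h v F ρ σ hp hF hρ hσ hσv hor hTwo
  obtain ⟨h4, h15⟩ := ONB_par k q h v hp
  have hodd := ONB_odd k q h v hp
  obtain ⟨c1, c2⟩ := h1 v hodd
  have key : ∀ t r t' r', Om h v (h + 8) t r → Om h v (h + 8) t' r' →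
      ((v : ℤ) * r + 2 * t) + ((v : ℤ) * r' + 2 * t') ≠ (v : ℤ) * ρ + 2 * σ := by
    intro t r t' r' ho ho' he
    have ht : t < v := by
      rcases ho with ⟨_, h, _⟩ | ⟨h, _, _⟩ <;> omega
    have ht' : t' < v := by
      rcases ho' with ⟨_, h, _⟩ | ⟨h, _, _⟩ <;> omega
    have := c2 t r t' r' ρ σ ht ht' hσv he
    unfold Om at ho ho'
    omega
  intro t r t' r' ho ho' hx hy hx' hy'
  by_contra hne
  apply hTwo
  have ht : t < v := by
    rcases ho with ⟨_, h, _⟩ | ⟨h, _, _⟩ <;> omega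
  have ht' : t' < v := by
    rcases ho' with ⟨_, h, _⟩ | ⟨h, _, _⟩ <;> omega
  have e1 : (v : ℤ) * ρ + 2 * σ - (v : ℤ) * r - 2 * t =
      (v : ℤ) * ρ + 2 * σ - ((v : ℤ) * r + 2 * t) := by ring
  have e2 : (v : ℤ) * ρ + 2 * σ - (v : ℤ) * r' - 2 * t' =
      (v : ℤ) * ρ + 2 * σ - ((v : ℤ) * r' + 2 * t') := by ring
  have hy1 : F ((v : ℤ) * ρ + 2 * σ - ((v : ℤ) * r + 2 * t)) = true := by
    rw [← e1]; exact hy
  have hy2 : F ((v : ℤ) * ρ + 2 * σ - ((v : ℤ) * r' + 2 * t')) = true := by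
    rw [← e2]; exact hy'
  refine ⟨(v : ℤ) * r + 2 * t, (v : ℤ) * r' + 2 * t', hx, hy1, hx', hy2, ?_, ?_, ?_, ?_⟩
  · intro h
    exact key t r t r ho ho (by linarith)
  · intro h
    exact key t' r' t' r' ho' ho' (by linarith)
  · intro h
    obtain ⟨a, b⟩ := c1 t r t' r' ht ht' h.symm
    exact hne ⟨a, b⟩
  · intro h
    exact key t r t' r' ho ho' (by linarith)

end Pool.Agent.U4
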