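import Pool.Agent.helper13.U4.SpecY

set_option autoImplicit false

namespace Pool.Agent.U4

lemma STA_down (N : ℕ) (P : ℕ → Prop) (h0 : P N) (hs : ∀ j < N, P (j + 1) → P j) :
    ∀ j ≤ N, P j := by
  have key : ∀ i, i ≤ N → P (N - i) := by
    intro i
    induction i with
    | zero => intro _; simpa using h0
    | succ i ih =>
      intro hi
      have h1 := ih (by omega)
      have h2 : N - i = (N - (i + 1)) + 1 := by omega
      rw [h2] at h1
      exact hs _ (by omega) h1
  intro j hj
  have := key (N - j) (by omega)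
  have h2 : N - (N - j) = j := by omega
  rwa [h2] at this

lemma STA_b1 : ∀ Q Q1 S1 S2 : Bool, false = ex1 Q1 S1 false → Q1 = ex1 Q S2 false → S1 = S2 →
    Q = false := by decide

lemma STA_b2 : ∀ z0 z1 q1 S1 S2 : Bool, z0 = ex1 z1 q1 S1 → z1 = ex1 false false S2 →
    q1 = ex1 false S2 false → S1 = S2 → z0 = false := by decide

/-- from the even time `e + 2` to the odd time and to the even time `e`: `w` -/
lemma STA_b3 : ∀ w2 w1 w0 z1 q1 s : Bool, w1 = ex1 w2 false false → w0 = ex1 w1 z1 q1 → z1 = s →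
    q1 = s → w1 = w2 ∧ w0 = (w2 && !s) := by decide

lemma STA_b4 : ∀ (w2 s p2 p1 p0 k2 k1 k0 : Bool), p1 = ex1 p2 w2 false → p0 = ex1 p1 w2 s →
    k1 = ex1 k2 p2 w2 → k0 = ex1 k1 p1 w2 → k2 = true → (w2 = true → p2 = true) →
    k0 = true ∧ ((w2 && !s) = true → p0 = true) := by
  intro w2 s p2 p1 p0 k2 k1 k0 h1 h2 h3 h4 h5 h6
  subst h1 h2 h5 h3 h4
  revert w2 s p2
  decide

lemma STA_b5 : ∀ (w2 s p1 p0 k1 k0 : Bool), p0 = ex1 p1 w2 s → k0 = ex1 k1 p1 w2 → p1 = false →
    k1 = false → w2 = true → k0 = true ∧ ((w2 && !s) = true → p0 = true) := by decide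

lemma STA_b6 : ∀ a : Bool, ex1 a false false = a := by decide

lemma STA_b7 : ∀ a : Bool, ex1 false false a = a := by decide

lemma STA_b8 : ∀ a : Bool, ex1 false a false = a := by decide

theorem STA : STA_stmt := by
  intro n S q z w p q' hn h2 hq hz hw hp hq' hS hq0 hzn
  obtain ⟨N, rfl⟩ : ∃ N, n = 2 * N := ⟨n / 2, by omega⟩
  have hN : 1 ≤ N := by omega
  -- even times
  have q2 : ∀ j ≤ N, q (2 * j) = false := by
    intro j
    induction j with
    | zero => intro _; exact hq0
    | succ j ih =>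
      intro hj
      have h0 := ih (by omega)
      have a := hq (2 * j) (by omega)
      have b := hq (2 * j + 1) (by omega)
      have c := hS (2 * j + 1) (by omega) (by omega)
      rw [h0] at a
      exact STA_b1 _ _ _ _ a b c
  have q1 : ∀ j < N, q (2 * j + 1) = S (2 * j + 2) := by
    intro j hj
    have b := hq (2 * j + 1) (by omega)
    have c : q (2 * j + 1 + 1) = false := q2 (j + 1) (by omega)
    rw [b, c]; exact STA_b8 _
  have z2 : ∀ j ≤ N, z (2 * j) = false := by
    refine STA_down N _ hzn ?_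
    intro j hj h0
    have a := hz (2 * j) (by omega)
    have b := hz (2 * j + 1) (by omega)
    have c : q (2 * j + 1 + 1) = false := q2 (j + 1) (by omega)
    have d := hq (2 * j + 1) (by omega)
    have e := hS (2 * j + 1) (by omega) (by omega)
    have f : z (2 * j + 1 + 1) = false := h0
    rw [f, c] at b
    rw [c] at d
    exact STA_b2 _ _ _ _ _ a b d e
  have z1 : ∀ j < N, z (2 * j + 1) = S (2 * j + 2) := by
    intro j hj
    have b := hz (2 * j + 1) (by omega)
    have c : q (2 * j + 1 + 1) = false := q2 (j + 1) (by omega)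
    have f : z (2 * j + 1 + 1) = false := z2 (j + 1) (by omega)
    rw [b, c, f]; exact STA_b7 _
  have w12 : ∀ j < N, w (2 * j + 1) = w (2 * j + 2) ∧
      w (2 * j) = (w (2 * j + 2) && !S (2 * j + 2)) := by
    intro j hj
    have b := hw (2 * j + 1) (by omega)
    have c : q (2 * j + 1 + 1) = false := q2 (j + 1) (by omega)
    have f : z (2 * j + 1 + 1) = false := z2 (j + 1) (by omega)
    rw [c, f] at b
    exact STA_b3 _ _ _ _ _ _ b (hw (2 * j) (by omega)) (z1 j hj) (q1 j hj)
  have p1 : ∀ j < N, p (2 * j + 1) = ex1 (p (2 * j + 2)) (w (2 * j + 2)) false := by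
    intro j hj
    have b := hp (2 * j + 1) (by omega)
    have f : z (2 * j + 1 + 1) = false := z2 (j + 1) (by omega)
    rw [f] at b
    exact b
  have p0 : ∀ j < N, p (2 * j) = ex1 (p (2 * j + 1)) (w (2 * j + 2)) (S (2 * j + 2)) := by
    intro j hj
    have b := hp (2 * j) (by omega)
    rw [(w12 j hj).1, z1 j hj] at b
    exact b
  have k1 : ∀ j < N, q' (2 * j + 1) = ex1 (q' (2 * j + 2)) (p (2 * j + 2)) (w (2 * j + 2)) :=
    fun j hj => hq' (2 * j + 1) (by omega)
  have k0 : ∀ j < N, q' (2 * j) = ex1 (q' (2 * j + 1)) (p (2 * j + 1)) (w (2 * j + 2)) := by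
    intro j hj
    have b := hq' (2 * j) (by omega)
    rw [(w12 j hj).1] at b
    exact b
  refine ⟨?_, ?_⟩
  · intro e he he2
    obtain ⟨j, rfl⟩ : ∃ j, e = 2 * j := ⟨e / 2, by omega⟩
    exact q2 j (by omega)
  · intro hpn hqn hq'0
    have hwn : w (2 * N) = false := by
      by_contra hcon
      rw [Bool.not_eq_false] at hcon
      obtain ⟨M, rfl⟩ : ∃ M, N = M + 1 := ⟨N - 1, by omega⟩
      have e1 : 2 * (M + 1) - 1 = 2 * M + 1 := by omega
      rw [e1] at hpn hqn
      have hcon' : w (2 * M + 2) = true := hcon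
      have base : q' (2 * M) = true ∧ (w (2 * M) = true → p (2 * M) = true) := by
        rw [(w12 M (by omega)).2]
        exact STA_b5 _ _ _ _ _ _ (p0 M (by omega)) (k0 M (by omega)) hpn hqn hcon'
      have all := STA_down M (fun j => q' (2 * j) = true ∧ (w (2 * j) = true → p (2 * j) = true))
        base (by
          intro j hj hjj
          rw [(w12 j (by omega)).2]
          exact STA_b4 _ _ _ _ _ _ _ _ (p1 j (by omega)) (p0 j (by omega)) (k1 j (by omega))
            (k0 j (by omega)) hjj.1 hjj.2)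
      have := (all 0 (Nat.zero_le _)).1
      rw [Nat.mul_zero, hq'0] at this
      exact absurd this (by decide)
    have w2 : ∀ j ≤ N, w (2 * j) = false := by
      refine STA_down N _ hwn ?_
      intro j hj h0
      have h0' : w (2 * j + 2) = false := h0
      rw [(w12 j hj).2, h0']
      rfl
    refine ⟨?_, ?_⟩
    · intro t ht
      rcases Nat.even_or_odd' t with ⟨j, rfl | rfl⟩
      · exact w2 j (by omega)
      · rw [(w12 j (by omega)).1]
        exact w2 (j + 1) (by omega)
    · intro u hu huo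
      obtain ⟨j, rfl⟩ : ∃ j, u = 2 * j + 1 := ⟨u / 2, by omega⟩
      have h0' : w (2 * j + 2) = false := w2 (j + 1) (by omega)
      rw [p1 j (by omega), h0']
      exact STA_b6 _

end Pool.Agent.U4
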