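import Pool.Agent.helper13.U4.Spec

set_option autoImplicit false

namespace Pool.Agent.U4

lemma VSM_step (v : ℕ) (F : ℤ → Bool) (hF : IsF v F) (m : ℕ) (hm : m + 2 ≤ v + 1) :
    F ((m : ℤ) + 2) = F m := by
  rw [hF.recF _ (by positivity)]
  have h1 : (m : ℤ) + 2 - 2 = m := by ring
  have h2 : F ((m : ℤ) + 2 - v - 2) = false := hF.neg _ (by omega)
  have h3 : F ((m : ℤ) + 2 - 2 * v - 2) = false := hF.neg _ (by omega)
  rw [h1, h2, h3]
  cases F (m : ℤ) <;> rfl

lemma VSM_small (v : ℕ) (F : ℤ → Bool) (hv : 1 ≤ v) (hF : IsF v F) :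
    ∀ m : ℕ, m ≤ v → (F m = true ↔ m % 2 = 0) := by
  intro m
  induction m using Nat.strong_induction_on with
  | _ m ih =>
    intro hm
    match m, ih, hm with
    | 0, _, _ =>
      simp [hF.zero]
    | 1, _, _ =>
      have h0 : F (1 : ℤ) = false := by
        rw [hF.recF 1 (by norm_num), hF.neg (1 - 2) (by norm_num), hF.neg (1 - v - 2) (by omega),
          hF.neg (1 - 2 * v - 2) (by omega)]
        rfl
      simp [h0]
    | m + 2, ih, hm =>
      have h1 := ih m (by omega) (by omega)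
      have h2 := VSM_step v F hF m (by omega)
      push_cast
      rw [h2, h1]
      omega

theorem VSM : VSM_stmt := by
  intro v F hv h5 hF
  have hs := VSM_small v F (by omega) hF
  have hFv : F (v : ℤ) = false := by
    have := hs v le_rfl
    by_contra h
    rw [Bool.not_eq_false] at h
    have := this.mp h
    omega
  have hF2 : F (2 : ℤ) = true := by
    have := (hs 2 (by omega)).mpr (by norm_num)
    exact_mod_cast this
  have hv2 : F ((v : ℤ) + 2) = true := by
    rw [hF.recF _ (by positivity)]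
    have h1 : (v : ℤ) + 2 - 2 = v := by ring
    have h2 : (v : ℤ) + 2 - v - 2 = 0 := by ring
    have h3 : F ((v : ℤ) + 2 - 2 * v - 2) = false := hF.neg _ (by omega)
    rw [h1, h2, h3, hFv, hF.zero]
    rfl
  refine ⟨hs, hv2, ?_⟩
  rw [hF.recF _ (by positivity)]
  have h1 : (v : ℤ) + 4 - 2 = v + 2 := by ring
  have h2 : (v : ℤ) + 4 - v - 2 = 2 := by ring
  have h3 : F ((v : ℤ) + 4 - 2 * v - 2) = false := hF.neg _ (by omega)
  rw [h1, h2, h3, hv2, hF2]
  rfl

end Pool.Agent.U4
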