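import Pool.Agent.helper13.U4.SpecD

set_option autoImplicit false

namespace Pool.Agent.U4

theorem PRM : PRM_stmt := by
  intro k q h v hp τ h1 h2
  obtain ⟨hk, hh, hq, hv⟩ := hp
  have h4 : 4 ≤ h := by
    rw [hh]
    calc 4 = 2 ^ 2 := by norm_num
      _ ≤ 2 ^ k := Nat.pow_le_pow_right (by norm_num) hk
  have h14 : 2 * h * 7 ≤ 2 * h * q := Nat.mul_le_mul_left _ hq
  have hpos : 0 < h := by omega
  have hdm := Nat.div_add_mod (τ + h - v) h
  have hmod := Nat.mod_lt (τ + h - v) hpos
  set b := (τ + h - v) / h with hb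
  set e := (τ + h - v) % h with he
  have hb8 : b < 8 := by
    rw [hb, Nat.div_lt_iff_lt_mul hpos]
    omega
  have heq : τ + h = v + b * h + e := by
    rw [mul_comm] at hdm
    omega
  refine ⟨b, e, by omega, hmod, heq, ?_, ?_, ?_⟩
  · intro hb0
    rw [hb0, zero_mul] at heq
    omega
  · intro hvt
    rcases Nat.eq_zero_or_pos b with h0 | h0
    · rw [h0, zero_mul] at heq
      omega
    · exact h0
  · intro a g ha hg hab
    obtain ⟨A, hA⟩ : ∃ A, A + a = 2 * q := ⟨2 * q - a, by omega⟩
    obtain ⟨B, hB⟩ : ∃ B, B + 1 = b + a := ⟨b + a - 1, by omega⟩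
    have e1 : 2 * q - a = A := by omega
    have e2 : b + a - 1 = B := by omega
    rw [e1, e2]
    have e3 : (A + B + 1) * h = (2 * q + b) * h := by
      congr 1
      omega
    have e4 : A * h + B * h + h = 2 * h * q + b * h := by
      calc A * h + B * h + h = (A + B + 1) * h := by ring
        _ = (2 * q + b) * h := e3
        _ = 2 * h * q + b * h := by ring
    omega

end Pool.Agent.U4
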